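import Pool.Agent.Helper57.REC.All5

/-!
# MP_78e9a5_nt: Shafarevich finiteness for sums of motives with coefficients in a number field

`Mot F S n w h` is the type of (models of) pure `ℤ`-motives over `F` of rank `n` and weight `w` with
Hodge types `h`, with pure good reduction outside `S` and semistable reduction in `S`.
`REC.Blo n m L` is the type of direct summands `L^m` of `L^n` for a number field `L`.
-/

open NumberField MU

namespace Pool.Agent.Results.MP_78e9a5_nt.CoefficientFields

section

variable {n m : ℕ} {L : Type} [Field L] [NumberField L] {F : Type} [Field F] [NumberField F]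

/-- The summands of the theorem: potentially abelian ones, of any rank `m` and with any Hodge types;
those of rank two (over the field `L` of coefficients) which are regular and irreducible in
characteristic zero; those of any rank `m` for which the image of the Galois group contains an open
subgroup of `SL_m` (for large `l` and all embeddings of `L` in `ℚ_l`); and those which are
irreducible in almost all characteristics. The second and the third kind satisfy the theory of
Fontaine and Laffaille. -/
def Typ (b : REC.Blo n m L) (h : Fin n → ℕ) (ρ : REC.Fml F n) : Prop :=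
  b.Ab ρ ∨ (m = 2 ∧ b.Ir0 ρ ∧ b.FLb h True ρ) ∨ (b.Big ρ ∧ b.FLb h False ρ) ∨ b.Irl ρ

end

/-- The rational realizations of `M` are completely reducible and over some finite extension `K` of
`F` and some number field `L` of coefficients the motive `M` is a direct sum of summands `b i` which
are stable under the Galois group of `K` (`Stb`), have characteristic polynomials of Frobenius with
coefficients in `L` and independent of `l` (`Cmp`), and satisfy `Typ`. -/
def Good {F : Type} [Field F] [NumberField F] {S : Finset ℕ} {n w : ℕ} {h : Fin n → ℕ}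
    (M : Mot F S n w h) : Prop :=
  (∀ (l : ℕ) [Fact l.Prime], REC.IsSS (rat (M.ρ l))) ∧
  ∃ (K : Type) (_ : Field K) (_ : NumberField K) (_ : Algebra F K)
    (j : AlgebraicClosure F ≃+* AlgebraicClosure K) (r : Gal K →* Gal F) (S' : Finset ℕ)
    (L : Type) (_ : Field L) (_ : NumberField L) (k : ℕ) (m : Fin k → ℕ)
    (b : ∀ i, REC.Blo n (m i) L), REC.IsBC F K j r ∧ REC.IsDcp b ∧
      ∀ i, (b i).Stb (fun l _ => (M.ρ l).comp r) ∧ (b i).Cmp S' (fun l _ => (M.ρ l).comp r) ∧
        Typ (b i) h (fun l _ => (M.ρ l).comp r)

theorem cfs_of {F : Type} [Field F] [NumberField F] {S : Finset ℕ} {n w : ℕ} {h : Fin n → ℕ}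
    (M : Mot F S n w h) (hM : Good M) : REC.Cfs M := by
  obtain ⟨h0, K, _, _, _, j, r, S', L, _, _, k, m, b, h1, h2, h3⟩ := hM
  exact ⟨h0, K, _, _, _, j, r, S', L, _, _, k, m, b, h1, h2,
    fun i => ⟨(h3 i).1, (h3 i).2.1, (h3 i).2.2⟩⟩

/-- There is a number `N`, depending on `F`, `S`, `n`, `w` and `h` only, such that every set `𝒯` of
pure `ℤ`-motives over `F` with these invariants and with the property `Good` has at most `N` members
up to isomorphism of the adelic realizations; and it has finitely many members up to isomorphism if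
the Tate conjecture holds for the homomorphisms between members of `𝒯`. -/
theorem result (F : Type) [Field F] [NumberField F] (S : Finset ℕ) (hS : ∀ p ∈ S, p.Prime)
    (n w : ℕ) (h : Fin n → ℕ) :
    ∃ N : ℕ, ∀ 𝒯 : Set (Mot F S n w h), (∀ M ∈ 𝒯, Good M) →
      (∃ T : Finset (Mot F S n w h), (T : Set (Mot F S n w h)) ⊆ 𝒯 ∧ T.card ≤ N ∧
        ∀ M ∈ 𝒯, ∃ M' ∈ T, M.AdelicIso M') ∧
      ((∀ M ∈ 𝒯, ∀ M' ∈ 𝒯, REC.TateHom M M') →
        ∃ T : Finset (Mot F S n w h), (T : Set (Mot F S n w h)) ⊆ 𝒯 ∧
          ∀ M ∈ 𝒯, ∃ M' ∈ T, M.Iso M') := by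
  obtain ⟨N, hN⟩ := REC.all_XFN F S hS n w h
  exact ⟨N, fun 𝒯 h𝒯 => hN 𝒯 fun M hM => cfs_of M (h𝒯 M hM)⟩

end Pool.Agent.Results.MP_78e9a5_nt.CoefficientFields
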