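import Pool.Agent.Helper85.REC.All4

/-!
# MP_78e9a5_nt: Shafarevich finiteness for motives which are potentially direct sums of small motives

`Mot F S n w h` is the type of (models of) pure `ℤ`-motives over `F` of rank `n` and weight `w` with
Hodge types `h`, with pure good reduction outside `S` and semistable reduction in `S`.
-/

open NumberField MU

namespace Pool.Agent.Results.MP_78e9a5_nt.PotentialSums

section

variable {F : Type} [Field F] [NumberField F] {S : Finset ℕ} {n w : ℕ} {h : Fin n → ℕ}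

/-- The direct summands: potentially abelian motives of any rank and any Hodge types (with
semisimple rational realizations); motives with irreducible rational realizations and almost all
reductions absolutely irreducible; irreducible motives of rank at most three with different
(symmetric) Hodge types, for which the theory of Fontaine and Laffaille holds. -/
def Smm (M : Mot F S n w h) : Prop :=
  REC.Pab M ∨ REC.Atm M ∨
  (n ≤ 3 ∧ Function.Injective h ∧ (∀ i, ∃ j, h i + h j = w) ∧ REC.FLT M ∧
    ∀ (l : ℕ) [Fact l.Prime], IsIrr (rat (M.ρ l)))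

/-- Over some finite extension `K` of `F` the motive `M` is isogenous to the direct sum of motives
`M' i` over `K` with the property `Smm`. -/
def Good (M : Mot F S n w h) : Prop :=
  ∃ (K : Type) (_ : Field K) (_ : NumberField K) (_ : Algebra F K)
    (j : AlgebraicClosure F ≃+* AlgebraicClosure K) (r : Gal K →* Gal F) (S' : Finset ℕ) (k : ℕ)
    (m : Fin k → ℕ) (h' : ∀ i, Fin (m i) → ℕ) (M' : ∀ i, Mot K S' (m i) w (h' i)),
    REC.IsBC F K j r ∧ (∀ p ∈ S', p.Prime) ∧ REC.IsSumK r M M' ∧ ∀ i, Smm (M' i)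

theorem smm_of (M : Mot F S n w h) (hM : Smm M) : REC.Smm M := by
  rcases hM with h1 | h1 | ⟨hn, h1, h2, h3, h4⟩
  · exact Or.inl h1
  · exact Or.inr (Or.inl h1)
  · have hn' : n ≤ 1 ∨ n = 2 ∨ n = 3 := by omega
    rcases hn' with h5 | h5 | h5
    · exact Or.inl (REC.pcd_small M h5)
    · exact Or.inr (Or.inr (Or.inl ⟨h5, h1, h3, fun l _ => REC.isSS_of_isIrr _ (h4 l)⟩))
    · exact Or.inr (Or.inr (Or.inr (Or.inl ⟨h5, h1, h2, h3, h4⟩)))

end

/-- There is a number `N`, depending on `F`, `S`, `n`, `w` and `h` only, such that every set `𝒯` of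
pure `ℤ`-motives over `F` with these invariants and with the property `Good` has at most `N` members
up to isomorphism of the adelic realizations; and it has finitely many members up to isomorphism if
the Tate conjecture holds for the homomorphisms between members of `𝒯`. -/
theorem result (F : Type) [Field F] [NumberField F] (S : Finset ℕ) (hS : ∀ p ∈ S, p.Prime)
    (n w : ℕ) (h : Fin n → ℕ) :
    ∃ N : ℕ, ∀ 𝒯 : Set (Mot F S n w h), (∀ M ∈ 𝒯, Good M) →
      (∃ T : Finset (Mot F S n w h), (T : Set (Mot F S n w h)) ⊆ 𝒯 ∧ T.card ≤ N ∧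
        ∀ M ∈ 𝒯, ∃ M' ∈ T, M.AdelicIso M') ∧
      ((∀ M ∈ 𝒯, ∀ M' ∈ 𝒯, REC.TateHom M M') →
        ∃ T : Finset (Mot F S n w h), (T : Set (Mot F S n w h)) ⊆ 𝒯 ∧
          ∀ M ∈ 𝒯, ∃ M' ∈ T, M.Iso M') := by
  obtain ⟨N, hN⟩ := REC.all_GRD F S hS n w h
  refine ⟨N, fun 𝒯 h𝒯 => hN 𝒯 fun M hM => ?_⟩
  obtain ⟨K, _, _, _, j, r, S', k, m, h', M', h1, h2, h3, h4⟩ := h𝒯 M hM
  exact Or.inl ⟨K, _, _, _, j, r, S', k, m, h', M', h1, h2, h3, fun i => smm_of (M' i) (h4 i)⟩

end Pool.Agent.Results.MP_78e9a5_nt.PotentialSums
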