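import Pool.Agent.Helper40.AbMot.CAll

/-!
# MP_78e9a5_nt: Shafarevich finiteness for potentially abelian pure `ℤ`-motives over a number field

The number field `F` is arbitrary. The motives are those which become abelian over some finite
extension of `F` (the motives of CM type over an algebraic closure of `F`); neither the
extension nor the Hodge numbers are fixed. `Compatible` says that the Galois conjugates
of homomorphisms over a Galois extension `K` of `F` are homomorphisms over `K`.
-/

open NumberField

namespace Pool.Agent.Results.MP_78e9a5_nt.PotentiallyAbelianMotives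

/-- For every number field `F`, every finite set `S` of primes and all `n`, `w`: every set `𝒯` of
pairwise compatible potentially abelian pure `ℤ`-motives over `F` of rank `n` and weight `w` with
good reduction outside `S` consists of finitely many isomorphism classes. -/
theorem result (F : Type) [Field F] [NumberField F] (S : Finset ℕ) (hS : ∀ p ∈ S, p.Prime)
    (n w : ℕ) (𝒯 : Set (AbMot.AMotive F S n w))
    (h𝒯 : ∀ M ∈ 𝒯, ∀ M' ∈ 𝒯, M.Compatible M') :
    ∃ T : Finset (AbMot.AMotive F S n w), (T : Set (AbMot.AMotive F S n w)) ⊆ 𝒯 ∧
      ∀ M ∈ 𝒯, ∃ M' ∈ T, M.Iso M' :=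
  AbMot.finiteness_all hS 𝒯 h𝒯

end Pool.Agent.Results.MP_78e9a5_nt.PotentiallyAbelianMotives
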