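import Pool.Agent.Helper27.REC.AllT

/-!
# MP_78e9a5_nt: Shafarevich finiteness in tensor categories generated by motives with large monodromy

`Mot F S n w h` is the type of (models of) pure `ℤ`-motives over `F` of rank `n` and weight `w` with
Hodge types `h`, with pure good reduction outside `S` and semistable reduction in `S`.
`REC.Blo n m L` is the type of direct summands `L^m` of `L^n` for a number field `L`.
-/

open NumberField MU

namespace Pool.Agent.Results.MP_78e9a5_nt.TensorGenerated

section

variable {F : Type} [Field F] [NumberField F] {S : Finset ℕ} {n w : ℕ} {h : Fin n → ℕ}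

/-- The rational realizations of `M` are semisimple, and over some finite extension `K` of `F` and
some number field `L` of coefficients the motive `M` is a direct summand of a direct sum of tensor
products `b₁^(⊗ c₁) ⊗ (b₁^*)^(⊗ c'₁) ⊗ ⋯ ⊗ b_t^(⊗ c_t) ⊗ (b_t^*)^(⊗ c'_t) ⊗ B(e)`, where the `B` are
potentially abelian motives, twisted by powers of the cyclotomic character, and `b₁, …, b_t` are
direct summands, with coefficients in `L`, of motives over `K`, such that

* the theory of Fontaine and Laffaille holds for `b_i`, and on every open subgroup `b_i` is
  irreducible in almost all characteristics, or has large image; or `b_i` has rank two, different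
  Hodge types, and is irreducible in characteristic zero on every open subgroup (`Blo.Gty`);
* `b_i` may carry an orthogonal or symplectic form `J_i` (`Frm`);
* for every `D` there is a Frobenius element whose eigenvalues on `b₁, …, b_t` have no
  multiplicative relations of size at most `D` and degree zero on each `b_i`, except those which
  follow from the forms (`Gnr`).

The class contains the motives of the tensor category generated by potentially abelian motives and
motives of rank two with different Hodge types, which are not related by twists
(theorem `REC.all_INK`). -/
def Good (M : Mot F S n w h) : Prop :=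
  (∀ (l : ℕ) [Fact l.Prime], REC.IsSS (rat (M.ρ l))) ∧ REC.TGn M

end

/-- There is a number `N`, depending on `F`, `S`, `n`, `w` and `h` only, such that every set `𝒯` of
pure `ℤ`-motives over `F` with these invariants and with the property `Good` has at most `N` members
up to isomorphism of the adelic realizations; and it has finitely many members up to isomorphism if
the Tate conjecture holds for the homomorphisms between members of `𝒯`. -/
theorem result (F : Type) [Field F] [NumberField F] (S : Finset ℕ) (hS : ∀ p ∈ S, p.Prime)
    (n w : ℕ) (h : Fin n → ℕ) :
    ∃ N : ℕ, ∀ 𝒯 : Set (Mot F S n w h), (∀ M ∈ 𝒯, Good M) →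
      (∃ T : Finset (Mot F S n w h), (T : Set (Mot F S n w h)) ⊆ 𝒯 ∧ T.card ≤ N ∧
        ∀ M ∈ 𝒯, ∃ M' ∈ T, M.AdelicIso M') ∧
      ((∀ M ∈ 𝒯, ∀ M' ∈ 𝒯, REC.TateHom M M') →
        ∃ T : Finset (Mot F S n w h), (T : Set (Mot F S n w h)) ⊆ 𝒯 ∧
          ∀ M ∈ 𝒯, ∃ M' ∈ T, M.Iso M') :=
  REC.all_TGF F S hS n w h

end Pool.Agent.Results.MP_78e9a5_nt.TensorGenerated
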